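import Mathlib

set_option autoImplicit false

namespace Pool.Agent.N809.Der

open Finset Equiv

variable {K : Type*} [Field K]

/-- the product `∏ 1 / (x_{σ k} - x_k)` (zero if `σ` has a fixed point) -/
noncomputable def W {α : Type*} [Fintype α] (x : α → K) (σ : Perm α) : K :=
  ∏ k, (x (σ k) - x k)⁻¹

/-- sum over all permutations, weighted by a character of the sign -/
noncomputable def P (χ : ℤˣ →* K) {α : Type*} [Fintype α] [DecidableEq α] (x : α → K) : K :=
  ∑ σ : Perm α, χ (Perm.sign σ) * W x σ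

lemma P_congr (χ : ℤˣ →* K) {α β : Type*} [Fintype α] [DecidableEq α] [Fintype β] [DecidableEq β]
    (e : α ≃ β) (x : β → K) : P χ (fun a => x (e a)) = P χ x := by
  unfold P
  refine Fintype.sum_equiv (Equiv.permCongr e) _ _ fun σ => ?_
  congr 1
  · rw [Perm.sign_permCongr]
  · unfold W
    refine Fintype.prod_equiv e _ _ fun k => ?_
    simp [Equiv.permCongr_apply]

/-- the key identity for inserting `none` behind `a` -/
lemma W_insert {α : Type*} [Fintype α] [DecidableEq α] (x : Option α → K)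
    (hx : Function.Injective x) (σ : Perm α) (a : α) :
    W x (Perm.decomposeOption.symm (some (σ a), σ)) =
      W (fun k => x (some k)) σ * ((x none - x (some a))⁻¹ - (x none - x (some (σ a)))⁻¹) +
      (if σ a = a then -((x none - x (some a))⁻¹) ^ 2 *
        ∏ k ∈ univ.erase a, (x (some (σ k)) - x (some k))⁻¹ else 0) := by
  have h0 : ∀ k, x none - x (some k) ≠ 0 := fun k h =>
    (Option.some_ne_none k) (hx (sub_eq_zero.1 h)).symm
  unfold W
  rw [Fintype.prod_option, ← mul_prod_erase univ _ (mem_univ a)]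
  have e1 : (Perm.decomposeOption.symm (some (σ a), σ)) none = some (σ a) := by
    simp
  have e2 : (Perm.decomposeOption.symm (some (σ a), σ)) (some a) = none := by
    simp
  have e3 : ∀ k ∈ univ.erase a, (x ((Perm.decomposeOption.symm (some (σ a), σ)) (some k)) - x (some k))⁻¹
      = (x (some (σ k)) - x (some k))⁻¹ := by
    intro k hk
    have hka : k ≠ a := (mem_erase.1 hk).1
    have : (Perm.decomposeOption.symm (some (σ a), σ)) (some k) = some (σ k) := by
      rw [Perm.decomposeOption_symm_apply]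
      simp only [Perm.coe_mul, Function.comp_apply, Equiv.optionCongr_apply, Option.map_some]
      apply Equiv.swap_apply_of_ne_of_ne
      · exact Option.some_ne_none _
      · intro h
        exact hka (σ.injective (Option.some.inj h))
    rw [this]
  rw [e1, e2, prod_congr rfl e3]
  rw [← mul_prod_erase univ (fun k => (x (some (σ k)) - x (some k))⁻¹) (mem_univ a)]
  by_cases h : σ a = a
  · rw [if_pos h, h]
    have h2 := h0 a
    have h3 : x (some a) - x none ≠ 0 := fun h => h2 (by linear_combination -h)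
    rw [sub_self, inv_zero]
    have : (x (some a) - x none)⁻¹ = -(x none - x (some a))⁻¹ := by
      rw [← inv_neg, neg_sub]
    rw [this]
    ring
  · rw [if_neg h, add_zero]
    have h1 : x (some (σ a)) - x (some a) ≠ 0 := fun h' =>
      h (Option.some.inj (hx (sub_eq_zero.1 h')))
    have h2 := h0 a
    have h3 := h0 (σ a)
    have h4 : x (some (σ a)) - x none ≠ 0 := fun h => h3 (by linear_combination -h)
    have key : (x (some (σ a)) - x none)⁻¹ * (x none - x (some a))⁻¹ =
        (x (some (σ a)) - x (some a))⁻¹ * ((x none - x (some a))⁻¹ - (x none - x (some (σ a)))⁻¹) := by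
      field_simp
      ring
    calc _ = ((x (some (σ a)) - x none)⁻¹ * (x none - x (some a))⁻¹) *
          ∏ k ∈ univ.erase a, (x (some (σ k)) - x (some k))⁻¹ := by ring
      _ = _ := by rw [key]; ring

lemma sum_fix (χ : ℤˣ →* K) {α : Type*} [Fintype α] [DecidableEq α] (y : α → K) (a : α) :
    ∑ σ : Perm α, (if σ a = a then χ (Perm.sign σ) * ∏ k ∈ univ.erase a, (y (σ k) - y k)⁻¹ else 0) =
      P χ (fun k : {k // k ≠ a} => y k) := by
  unfold P
  rw [← sum_filter]
  symm
  refine sum_bij' (fun σ _ => Perm.ofSubtype σ)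
    (fun σ hσ => if h : σ a = a then Perm.subtypePerm σ (p := fun k => k ≠ a) (fun k => by
      constructor
      · intro hk h'
        exact hk (by rw [h', h])
      · intro hk h'
        apply hk
        apply σ.injective
        rw [h', h]) else 1) ?_ ?_ ?_ ?_ ?_
  · intro σ _
    rw [mem_filter]
    refine ⟨mem_univ _, ?_⟩
    exact Perm.ofSubtype_apply_of_not_mem σ (by simp)
  · intro σ _
    exact mem_univ _
  · intro σ _
    have h : (Perm.ofSubtype σ) a = a := Perm.ofSubtype_apply_of_not_mem σ (by simp)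
    rw [dif_pos h]
    ext k
    simp
  · intro σ hσ
    rw [mem_filter] at hσ
    rw [dif_pos hσ.2]
    ext k
    by_cases hk : k = a
    · subst hk
      rw [Perm.ofSubtype_apply_of_not_mem _ (by simp), hσ.2]
    · rw [Perm.ofSubtype_apply_of_mem (p := fun k => k ≠ a) _ hk]
      rfl
  · intro σ _
    congr 1
    · rw [Perm.sign_ofSubtype]
    · unfold W
      symm
      have h5 : ∏ k ∈ univ.erase a, (y ((Perm.ofSubtype σ) k) - y k)⁻¹ =
          ∏ k : {k // k ≠ a}, (y ((Perm.ofSubtype σ) k) - y k)⁻¹ :=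
        prod_subtype (univ.erase a) (by simp) _
      rw [h5]
      refine prod_congr rfl fun k _ => ?_
      rw [Perm.ofSubtype_apply_coe]

/-- The recursion. -/
lemma P_option (χ : ℤˣ →* K) {α : Type*} [Fintype α] [DecidableEq α] (x : Option α → K)
    (hx : Function.Injective x) :
    P χ x = χ (-1) * ∑ a : α, (-((x none - x (some a))⁻¹) ^ 2) *
      P χ (fun k : {k // k ≠ a} => x (some (k : α))) := by
  have e1 : P χ x = ∑ p : Option α × Perm α, χ (Perm.sign (Perm.decomposeOption.symm p)) *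
      W x (Perm.decomposeOption.symm p) := by
    unfold P
    exact (Equiv.sum_comp (Perm.decomposeOption (α := α)).symm
      (fun σ => χ (Perm.sign σ) * W x σ)).symm
  rw [e1, Fintype.sum_prod_type, Fintype.sum_option]
  have e2 : ∑ σ : Perm α, χ (Perm.sign (Perm.decomposeOption.symm ((none : Option α), σ))) *
      W x (Perm.decomposeOption.symm (none, σ)) = 0 := by
    apply sum_eq_zero
    intro σ _
    have : W x (Perm.decomposeOption.symm (none, σ)) = 0 := by
      unfold W
      rw [Fintype.prod_option]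
      have : (Perm.decomposeOption.symm ((none : Option α), σ)) none = none := by simp
      rw [this, sub_self, inv_zero, zero_mul]
    rw [this, mul_zero]
  rw [e2, zero_add, sum_comm]
  have e3 : ∀ σ : Perm α, ∑ b : α, χ (Perm.sign (Perm.decomposeOption.symm (some b, σ))) *
      W x (Perm.decomposeOption.symm (some b, σ)) =
      χ (-1) * ∑ a : α, (-((x none - x (some a))⁻¹) ^ 2) *
        (if σ a = a then χ (Perm.sign σ) *
          ∏ k ∈ univ.erase a, (x (some (σ k)) - x (some k))⁻¹ else 0) := by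
    intro σ
    rw [← Equiv.sum_comp σ]
    have hs : ∀ a, Perm.sign (Perm.decomposeOption.symm (some (σ a), σ)) = -1 * Perm.sign σ := by
      intro a
      rw [Perm.decomposeOption_symm_apply, Perm.sign_mul, Perm.sign_swap (Option.some_ne_none _).symm,
        Equiv.optionCongr_sign]
    have hz : ∑ a : α, ((x none - x (some a))⁻¹ - (x none - x (some (σ a)))⁻¹) = 0 := by
      rw [sum_sub_distrib, Equiv.sum_comp σ (fun a => (x none - x (some a))⁻¹), sub_self]
    have : ∀ a, χ (Perm.sign (Perm.decomposeOption.symm (some (σ a), σ))) *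
        W x (Perm.decomposeOption.symm (some (σ a), σ)) =
        χ (-1) * χ (Perm.sign σ) * W (fun k => x (some k)) σ *
          ((x none - x (some a))⁻¹ - (x none - x (some (σ a)))⁻¹) +
        χ (-1) * ((-((x none - x (some a))⁻¹) ^ 2) *
        (if σ a = a then χ (Perm.sign σ) *
          ∏ k ∈ univ.erase a, (x (some (σ k)) - x (some k))⁻¹ else 0)) := by
      intro a
      rw [hs, map_mul, W_insert x hx]
      split_ifs <;> ring
    rw [sum_congr rfl fun a _ => this a, sum_add_distrib, ← mul_sum, hz, mul_zero, zero_add,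
      ← mul_sum]
  rw [sum_congr rfl fun σ _ => e3 σ, ← mul_sum, sum_comm]
  congr 1
  refine sum_congr rfl fun a _ => ?_
  rw [← mul_sum]
  congr 1
  exact sum_fix χ (fun k => x (some k)) a

/-- `1` and the sign give the same sums up to `(-1) ^ m`. -/
theorem P_one_eq (m : ℕ) : ∀ {α : Type} [Fintype α] [DecidableEq α] (x : α → K),
    Function.Injective x → Fintype.card α = 2 * m → ∀ χ : ℤˣ →* K,
    P 1 x = (χ (-1)) ^ m * P χ x := by
  induction m with
  | zero =>
    intro α _ _ x hx hc χ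
    have : IsEmpty α := Fintype.card_eq_zero_iff.1 hc
    unfold P W
    simp
  | succ m ih =>
    intro α _ _ x hx hc χ
    have hne : Nonempty α := Fintype.card_pos_iff.1 (by omega)
    obtain ⟨a₀⟩ := hne
    have e := Equiv.optionSubtypeNe a₀
    rw [← P_congr 1 e x, ← P_congr χ e x]
    have hxe : Function.Injective (fun o => x (e o)) := hx.comp e.injective
    have hcard : Fintype.card {k // k ≠ a₀} = 2 * m + 1 := by
      have := Fintype.card_congr e
      rw [Fintype.card_option] at this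
      omega
    rw [P_option 1 _ hxe, P_option χ _ hxe, pow_succ]
    have hchi : χ (-1) * χ (-1) = 1 := by
      rw [← map_mul]
      simp
    rw [MonoidHom.one_apply, one_mul, mul_assoc, ← mul_assoc (χ (-1)) (χ (-1)), hchi, one_mul, mul_sum]
    refine sum_congr rfl fun a _ => ?_
    have h1 : Function.Injective (fun k : {k // k ≠ a} => x (e (some (k : {k // k ≠ a₀})))) := by
      intro k k' h
      have := hxe h
      exact Subtype.ext (Option.some.inj this)
    have h2 : Fintype.card {k // k ≠ a} = 2 * m := by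
      have := Fintype.card_subtype_compl (fun k : {k // k ≠ a₀} => k = a)
      rw [Fintype.card_subtype_eq, hcard] at this
      rw [this]
      omega
    rw [ih (α := {k // k ≠ a}) _ h1 h2 χ]
    ring


/-! ### The determinant -/

section Det

variable {n : ℕ} {ζ : K}

/-- `L s = ∑_{r ≠ 0} ζ ^ (r s) / (1 - ζ ^ r)` -/
noncomputable def L (ζ : K) (n s : ℕ) : K := ∑ r ∈ range n, ζ ^ (r * s) * (1 - ζ ^ r)⁻¹

lemma L_succ (hn : 0 < n) (hζ : IsPrimitiveRoot ζ n) (s : ℕ) (hs : ¬ n ∣ s) :
    L ζ n (s + 1) = L ζ n s + 1 := by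
  have h1 : L ζ n (s + 1) - L ζ n s = ∑ r ∈ range n, (-(ζ ^ s) ^ r + if r = 0 then 1 else 0) := by
    unfold L
    rw [← sum_sub_distrib]
    refine sum_congr rfl fun r hr => ?_
    by_cases h0 : r = 0
    · subst h0
      simp
    · rw [if_neg h0]
      have h2 : 1 - ζ ^ r ≠ 0 := by
        intro h
        have h3 : ζ ^ r = 1 := by linear_combination -h
        have := hζ.dvd_of_pow_eq_one r h3
        exact h0 (Nat.eq_zero_of_dvd_of_lt this (mem_range.1 hr))
      rw [show r * (s + 1) = r * s + r by ring, pow_add, ← pow_mul, mul_comm s r]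
      field_simp
      ring
  have h4 : ∑ r ∈ range n, (ζ ^ s) ^ r = 0 := by
    have h5 : ζ ^ s ≠ 1 := fun h => hs (hζ.dvd_of_pow_eq_one s h)
    have h6 : (ζ ^ s) ^ n = 1 := by rw [← pow_mul, mul_comm, pow_mul, hζ.pow_eq_one, one_pow]
    rw [geom_sum_eq h5, h6, sub_self, zero_div]
  rw [sum_add_distrib, sum_neg_distrib, h4, neg_zero, zero_add, sum_ite_eq' (range n) 0,
    if_pos (mem_range.2 hn)] at h1
  linear_combination h1

lemma two_L_zero (hn : 0 < n) (hζ : IsPrimitiveRoot ζ n) : 2 * L ζ n 0 = (n : K) - 1 := by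
  obtain ⟨m, rfl⟩ : ∃ m, n = m + 1 := ⟨n - 1, by omega⟩
  have h1 : L ζ (m + 1) 0 = ∑ r ∈ range m, (1 - ζ ^ (r + 1))⁻¹ := by
    unfold L
    rw [sum_range_succ']
    simp
  have h2 : L ζ (m + 1) 0 = ∑ r ∈ range m, (1 - ζ ^ (m - 1 - r + 1))⁻¹ := by
    rw [h1, ← sum_range_reflect]
  have h3 : ∀ r ∈ range m, (1 - ζ ^ (r + 1))⁻¹ + (1 - ζ ^ (m - 1 - r + 1))⁻¹ = 1 := by
    intro r hr
    rw [mem_range] at hr
    have hz : ζ ≠ 0 := hζ.ne_zero (by omega)
    have h4 : ζ ^ (m - 1 - r + 1) * ζ ^ (r + 1) = 1 := by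
      rw [← pow_add, show m - 1 - r + 1 + (r + 1) = m + 1 by omega, hζ.pow_eq_one]
    have h5 : 1 - ζ ^ (r + 1) ≠ 0 := by
      intro h
      have h3 : ζ ^ (r + 1) = 1 := by linear_combination -h
      have := Nat.le_of_dvd (by omega) (hζ.dvd_of_pow_eq_one _ h3)
      omega
    have h6 : 1 - ζ ^ (m - 1 - r + 1) ≠ 0 := by
      intro h
      have h3 : ζ ^ (m - 1 - r + 1) = 1 := by linear_combination -h
      have := Nat.le_of_dvd (by omega) (hζ.dvd_of_pow_eq_one _ h3)
      omega
    field_simp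
    linear_combination -h4
  have h7 : L ζ (m + 1) 0 + L ζ (m + 1) 0 = m := by
    nth_rewrite 1 [h1]
    rw [h2, ← sum_add_distrib, sum_congr rfl h3]
    simp
  push_cast
  linear_combination h7

lemma two_L (hn : 0 < n) (hζ : IsPrimitiveRoot ζ n) (s : ℕ) (hs : s < n) :
    2 * L ζ n (n - s) = (n : K) - 1 - 2 * s := by
  have key : ∀ t, t + 1 ≤ n → 2 * L ζ n (t + 1) = 2 * (t + 1 : K) - n - 1 := by
    intro t
    induction t with
    | zero =>
      intro _
      have h0 := two_L_zero hn hζ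
      have h1 : L ζ n 1 - L ζ n 0 = ∑ r ∈ range n, (-(1 : K) + if r = 0 then 1 else 0) := by
        unfold L
        rw [← sum_sub_distrib]
        refine sum_congr rfl fun r hr => ?_
        by_cases h0 : r = 0
        · subst h0
          simp
        · rw [if_neg h0]
          have h2 : 1 - ζ ^ r ≠ 0 := by
            intro h
            have h3 : ζ ^ r = 1 := by linear_combination -h
            have := hζ.dvd_of_pow_eq_one r h3
            exact h0 (Nat.eq_zero_of_dvd_of_lt this (mem_range.1 hr))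
          rw [mul_one, mul_zero, pow_zero]
          field_simp
          ring
      rw [sum_add_distrib, sum_const, card_range, sum_ite_eq' (range n) 0,
        if_pos (mem_range.2 hn), nsmul_eq_mul] at h1
      push_cast
      linear_combination 2 * h1 + h0
    | succ t ih =>
      intro ht
      rw [L_succ hn hζ (t + 1) (Nat.not_dvd_of_pos_of_lt (by omega) (by omega))]
      have := ih (by omega)
      push_cast
      linear_combination this
  obtain ⟨t, ht⟩ : ∃ t, n - s = t + 1 := ⟨n - s - 1, by omega⟩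
  rw [ht, key t (by omega)]
  have h1 : n = t + 1 + s := by omega
  have h2 : (n : K) = t + 1 + s := by exact_mod_cast congrArg (Nat.cast (R := K)) h1
  rw [h2]
  ring

/-- the matrix `1 / (1 - ζ ^ (j - k))` with zero diagonal -/
noncomputable def B (ζ : K) (n : ℕ) : Matrix (Fin n) (Fin n) K :=
  fun j k => (1 - ζ ^ ((j : ℤ) - (k : ℤ)))⁻¹

lemma sum_col (hn : 0 < n) (hζ : IsPrimitiveRoot ζ n) (j : Fin n) (s : Fin n) :
    ∑ k : Fin n, B ζ n j k * ζ ^ ((k : ℕ) * (s : ℕ)) = ζ ^ ((j : ℕ) * (s : ℕ)) * L ζ n (n - s) := by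
  have hz : ζ ≠ 0 := hζ.ne_zero (by omega)
  have : NeZero n := ⟨by omega⟩
  unfold L
  rw [← Fin.sum_univ_eq_sum_range (fun r => ζ ^ (r * (n - s)) * (1 - ζ ^ r)⁻¹) n, mul_sum]
  refine Fintype.sum_equiv (Equiv.subLeft j) _ _ fun k => ?_
  have hmod : ∀ m : ℕ, ζ ^ (m % n) = ζ ^ m := by
    intro m
    conv_rhs => rw [← Nat.mod_add_div m n, pow_add, pow_mul, hζ.pow_eq_one, one_pow, mul_one]
  have h1 : ζ ^ ((Equiv.subLeft j k : Fin n) : ℕ) = ζ ^ ((j : ℤ) - (k : ℤ)) := by
    rw [Equiv.subLeft_apply, Fin.sub_def]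
    show ζ ^ ((n - (k : ℕ) + (j : ℕ)) % n) = _
    rw [hmod]
    have h2 : ((n - (k : ℕ) + (j : ℕ) : ℕ) : ℤ) = (n : ℤ) + ((j : ℤ) - (k : ℤ)) := by
      have := k.isLt
      omega
    rw [← zpow_natCast, h2, zpow_add₀ hz, zpow_natCast, hζ.pow_eq_one, one_mul]
  rw [pow_mul ζ ((Equiv.subLeft j k : Fin n) : ℕ), h1]
  unfold B
  have h3 : ζ ^ ((k : ℕ) * (s : ℕ)) = ζ ^ ((j : ℕ) * (s : ℕ)) * (ζ ^ ((j : ℤ) - (k : ℤ))) ^ (n - (s : ℕ)) := by
    rw [← zpow_natCast ζ ((k : ℕ) * (s : ℕ)), ← zpow_natCast ζ ((j : ℕ) * (s : ℕ)), ← zpow_natCast,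
      ← zpow_mul, ← zpow_add₀ hz]
    have h4 : (((j : ℕ) * (s : ℕ) : ℕ) : ℤ) + ((j : ℤ) - (k : ℤ)) * ((n - (s : ℕ) : ℕ) : ℤ) =
        (((k : ℕ) * (s : ℕ) : ℕ) : ℤ) + (n : ℤ) * ((j : ℤ) - (k : ℤ)) := by
      have := s.isLt
      push_cast [this.le]
      ring
    rw [h4, zpow_add₀ hz, zpow_mul, zpow_natCast ζ n, hζ.pow_eq_one, one_zpow, mul_one]
  rw [h3]
  ring

lemma det_B (hn : 0 < n) (hζ : IsPrimitiveRoot ζ n) :
    (B ζ n).det = ∏ s : Fin n, L ζ n (n - s) := by
  set V : Matrix (Fin n) (Fin n) K := Matrix.vandermonde (fun k : Fin n => ζ ^ (k : ℕ)) with hV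
  have h1 : B ζ n * V = V * Matrix.diagonal (fun s : Fin n => L ζ n (n - s)) := by
    ext j s
    rw [Matrix.mul_diagonal, Matrix.mul_apply, hV]
    simp only [Matrix.vandermonde_apply, ← pow_mul]
    exact sum_col hn hζ j s
  have h2 : V.det ≠ 0 := by
    rw [hV, Matrix.det_vandermonde_ne_zero_iff]
    intro a b hab
    exact Fin.ext (hζ.pow_inj a.isLt b.isLt hab)
  have h3 := congrArg Matrix.det h1
  rw [Matrix.det_mul, Matrix.det_mul, Matrix.det_diagonal, mul_comm V.det] at h3
  exact mul_right_cancel₀ h2 h3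

end Det

/-! ### The sum over the derangements -/

section Main

variable {n : ℕ} {ζ : K}

lemma prod_B (hn : 0 < n) (hζ : IsPrimitiveRoot ζ n) (τ : Perm (Fin n)) :
    ∏ j, B ζ n j (τ j) = (∏ j : Fin n, ζ ^ (j : ℕ)) * W (fun j : Fin n => ζ ^ (j : ℕ)) τ := by
  have hz : ζ ≠ 0 := hζ.ne_zero (by omega)
  rw [← Equiv.prod_comp τ (fun j : Fin n => ζ ^ (j : ℕ))]
  unfold W
  rw [← prod_mul_distrib]
  refine prod_congr rfl fun j _ => ?_
  unfold B
  have h1 : (ζ ^ ((τ j : Fin n) : ℕ) - ζ ^ (j : ℕ)) =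
      ζ ^ ((τ j : Fin n) : ℕ) * (1 - ζ ^ ((j : ℤ) - ((τ j : Fin n) : ℤ))) := by
    rw [mul_sub, mul_one, zpow_sub₀ hz, zpow_natCast, zpow_natCast]
    field_simp
  rw [h1, mul_inv, ← mul_assoc, mul_inv_cancel₀ (pow_ne_zero _ hz), one_mul]

lemma sum_B (hn : 0 < n) (hζ : IsPrimitiveRoot ζ n) (m : ℕ) (hm : n = 2 * m) :
    ∑ τ : Perm (Fin n), ∏ j, B ζ n j (τ j) = (-1) ^ m * (B ζ n).det := by
  have hinj : Function.Injective (fun j : Fin n => ζ ^ (j : ℕ)) := by
    intro a b hab
    exact Fin.ext (hζ.pow_inj a.isLt b.isLt hab)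
  set χ : ℤˣ →* K := (Int.castRingHom K).toMonoidHom.comp (Units.coeHom ℤ) with hχ
  have hχv : ∀ u : ℤˣ, χ u = ((u : ℤ) : K) := fun u => rfl
  have h1 : ∑ τ : Perm (Fin n), ∏ j, B ζ n j (τ j) =
      (∏ j : Fin n, ζ ^ (j : ℕ)) * P 1 (fun j : Fin n => ζ ^ (j : ℕ)) := by
    unfold P
    rw [mul_sum]
    refine sum_congr rfl fun τ _ => ?_
    rw [prod_B hn hζ, MonoidHom.one_apply, one_mul]
  have h2 : (B ζ n).det = (∏ j : Fin n, ζ ^ (j : ℕ)) * P χ (fun j : Fin n => ζ ^ (j : ℕ)) := by
    rw [← Matrix.det_transpose, Matrix.det_apply']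
    unfold P
    rw [mul_sum]
    refine sum_congr rfl fun τ _ => ?_
    simp only [Matrix.transpose_apply]
    rw [prod_B hn hζ, hχv]
    ring
  rw [h1, h2, P_one_eq m _ hinj (by rw [Fintype.card_fin, hm]) χ, hχv]
  push_cast
  ring

lemma prod_odd (m : ℕ) : ∏ s ∈ range (2 * m), ((2 * m : K) - 1 - 2 * s) =
    (-1) ^ m * (Nat.doubleFactorial (2 * m - 1) : K) ^ 2 := by
  induction m with
  | zero => simp
  | succ m ih =>
    have h1 : ∏ s ∈ range (2 * (m + 1)), ((2 * ((m + 1 : ℕ) : K)) - 1 - 2 * s) =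
        (2 * (m : K) + 1) * (∏ s ∈ range (2 * m), ((2 * m : K) - 1 - 2 * s)) * (-(2 * (m : K) + 1)) := by
      rw [show 2 * (m + 1) = 2 * m + 1 + 1 by ring, prod_range_succ', prod_range_succ]
      have : ∀ s ∈ range (2 * m), ((2 * ((m + 1 : ℕ) : K)) - 1 - 2 * ((s + 1 : ℕ) : K)) =
          ((2 * m : K) - 1 - 2 * s) := by
        intro s _
        push_cast
        ring
      rw [prod_congr rfl this]
      push_cast
      ring
    rw [h1, ih]
    rcases Nat.eq_zero_or_pos m with rfl | hm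
    · simp
    · have h2 : Nat.doubleFactorial (2 * (m + 1) - 1) =
          (2 * m + 1) * Nat.doubleFactorial (2 * m - 1) := by
        have : 2 * (m + 1) - 1 = (2 * m - 1) + 2 := by omega
        rw [this, Nat.doubleFactorial_add_two]
        congr 1
        omega
      rw [h2]
      push_cast
      ring

/-- The sum over all permutations in characteristic different from two. -/
theorem sum_eq (h2 : (2 : K) ≠ 0) (m : ℕ) (hm : 0 < m) (hζ : IsPrimitiveRoot ζ (2 * m)) :
    ∑ τ : Perm (Fin (2 * m)), ∏ j, B ζ (2 * m) j (τ j) =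
      (Nat.doubleFactorial (2 * m - 1) : K) ^ 2 / 2 ^ (2 * m) := by
  rw [sum_B (by omega) hζ m rfl, det_B (by omega) hζ, eq_div_iff (pow_ne_zero _ h2)]
  have h3 : (∏ s : Fin (2 * m), L ζ (2 * m) (2 * m - s)) * 2 ^ (2 * m) =
      ∏ s ∈ range (2 * m), ((2 * m : K) - 1 - 2 * s) := by
    rw [← Fin.prod_univ_eq_prod_range (fun s : ℕ => ((2 * m : K) - 1 - 2 * s)) (2 * m)]
    have : (2 : K) ^ (2 * m) = ∏ _s : Fin (2 * m), (2 : K) := by simp
    rw [this, ← prod_mul_distrib]
    refine prod_congr rfl fun s _ => ?_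
    rw [mul_comm, two_L (by omega) hζ s s.isLt]
    push_cast
    ring
  rw [mul_assoc, h3, prod_odd, ← mul_assoc, ← mul_pow]
  simp

lemma closed_form (m : ℕ) :
    ((Nat.doubleFactorial (2 * m - 1) : ℂ)) ^ 2 / 2 ^ (2 * m) =
      ((2 * m).factorial : ℂ) / 4 ^ (2 * m) * ((2 * m).choose m : ℂ) := by
  rcases Nat.eq_zero_or_pos m with rfl | hm
  · simp
  have h1 : (2 * m).factorial = 2 ^ m * m.factorial * Nat.doubleFactorial (2 * m - 1) := by
    have := Nat.factorial_eq_mul_doubleFactorial (2 * m - 1)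
    rw [show 2 * m - 1 + 1 = 2 * m by omega] at this
    rw [this, Nat.doubleFactorial_two_mul]
  have h2 : (2 * m).choose m * (m.factorial * m.factorial) = (2 * m).factorial := by
    have := Nat.choose_mul_factorial_mul_factorial (show m ≤ 2 * m by omega)
    rw [show 2 * m - m = m by omega] at this
    rw [← this]
    ring
  have hf : (m.factorial : ℂ) ≠ 0 := by exact_mod_cast m.factorial_ne_zero
  have h3 : ((2 * m).choose m : ℂ) * (m.factorial * m.factorial) = (2 * m).factorial := by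
    exact_mod_cast h2
  have h4 : ((2 * m).factorial : ℂ) = 2 ^ m * m.factorial * Nat.doubleFactorial (2 * m - 1) := by
    exact_mod_cast h1
  have h5 : ((2 * m).choose m : ℂ) = 2 ^ m * Nat.doubleFactorial (2 * m - 1) / m.factorial := by
    rw [eq_div_iff hf]
    apply mul_right_cancel₀ hf
    rw [mul_assoc, h3, h4]
    ring
  rw [h5, h4]
  have h6 : (4 : ℂ) ^ (2 * m) = 2 ^ (2 * m) * (2 ^ m * 2 ^ m) := by
    rw [← pow_add, ← pow_add, show (4 : ℂ) = 2 ^ 2 by norm_num, ← pow_mul]
    congr 1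
    ring
  rw [h6]
  field_simp

end Main

end Pool.Agent.N809.Der
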